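import Mathlib

open Filter Topology

namespace Pool.Agent.Results.MP_b2e8e7_an.AllTriples

section Definitions

variable {X : Type*} [NormedAddCommGroup X] [NormedSpace ℝ X]

/-- The sequence `x` converges weakly to `a`: `φ (x k) → φ a` for every bounded linear functional.
As in the text, a sequence is `x 1, x 2, …`; the value `x 0` plays no role in any quantity below. -/
def WeakTendsto (x : ℕ → X) (a : X) : Prop :=
  ∀ φ : X →L[ℝ] ℝ, Tendsto (fun k => φ (x k)) atTop (𝓝 (φ a))

/-- `ca (x_k) = inf_n sup {‖x_k - x_l‖ : k, l ≥ n}`. -/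
noncomputable def ca (x : ℕ → X) : ℝ :=
  ⨅ n : ℕ, sSup {r : ℝ | ∃ k l : ℕ, n ≤ k ∧ n ≤ l ∧ r = ‖x k - x l‖}

/-- `cca (x_k) = ca ((1/k) ∑_{i=1}^k x_i)`. -/
noncomputable def cca (x : ℕ → X) : ℝ :=
  ca (fun k => (1 / (k : ℝ)) • ∑ i ∈ Finset.Icc 1 k, x i)

/-- The infimum of `cca` over all subsequences. -/
noncomputable def ccaSub (x : ℕ → X) : ℝ :=
  ⨅ σ : {σ : ℕ → ℕ // StrictMono σ}, cca (fun k => x (σ.1 k))

/-- For a sequence `x` converging weakly to `a`: the infimum of those `ε > 0` for which some `n`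
satisfies `#{k : |φ (x_k - a)| > ε} ≤ n` for all `φ` in the dual unit ball. -/
noncomputable def wu (x : ℕ → X) (a : X) : ℝ :=
  sInf {ε : ℝ | 0 < ε ∧ ∃ n : ℕ, ∀ φ : X →L[ℝ] ℝ, ‖φ‖ ≤ 1 →
    {k : ℕ | ε < |φ (x k - a)|}.encard ≤ (n : ℕ∞)}

/-- The infimum of `wu` over all subsequences. -/
noncomputable def wuSub (x : ℕ → X) (a : X) : ℝ :=
  ⨅ σ : {σ : ℕ → ℕ // StrictMono σ}, wu (fun k => x (σ.1 k)) a

/-- `u` generates an `ℓ₁`-spreading model with constant `δ`. -/
def GeneratesL1 (u : ℕ → X) (δ : ℝ) : Prop :=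
  ∀ F : Finset ℕ, F.Nonempty → (∀ i ∈ F, F.card ≤ i) → ∀ α : ℕ → ℝ,
    δ * ∑ i ∈ F, |α i| ≤ ‖∑ i ∈ F, α i • u i‖

/-- `wbs A`. -/
noncomputable def wbs (A : Set X) : ℝ :=
  sSup {r : ℝ | ∃ x : ℕ → X, (∀ k, x k ∈ A) ∧ (∃ a : X, WeakTendsto x a) ∧ r = ccaSub x}

/-- `swu A`. -/
noncomputable def swu (A : Set X) : ℝ :=
  sSup {r : ℝ | ∃ (x : ℕ → X) (a : X), (∀ k, x k ∈ A) ∧ WeakTendsto x a ∧ r = wuSub x a}

/-- `sm A`. -/
noncomputable def sm (A : Set X) : ℝ :=
  sSup {δ : ℝ | 0 < δ ∧ ∃ (x : ℕ → X) (a : X), (∀ k, x k ∈ A) ∧ WeakTendsto x a ∧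
    GeneratesL1 (fun k => x k - a) δ}

end Definitions

section Weights

/-- Admissible finite sets: `#F ≤ (i+1)^3` for all `i ∈ F`. -/
def Adm (F : Finset ℕ) : Prop := ∀ i ∈ F, F.card ≤ (i + 1) ^ 3

theorem exists_weights (I : Set ℕ) (hI : I.Infinite) (η : ℝ) (hη : 0 < η) (N : ℕ) :
    ∃ (J : Finset ℕ) (a : ℕ → ℝ), (∀ i ∈ J, i ∈ I) ∧ (∀ i, 0 ≤ a i) ∧ (∀ i, i ∉ J → a i = 0) ∧
      ∑ i ∈ J, a i = N ∧ ∀ F : Finset ℕ, Adm F → ∑ i ∈ F, a i ≤ 1 + N * η := by
  classical
  induction N with
  | zero =>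
    refine ⟨∅, fun _ => 0, by simp, by simp, by simp, by simp, ?_⟩
    intro F _
    simp
  | succ N ih =>
    obtain ⟨J, a, hJ, ha, hJa, hsum, hF⟩ := ih
    -- the new block
    set m : ℕ := J.sup id with hm
    obtain ⟨K, hK⟩ : ∃ K : ℕ, ((m + 1 : ℕ) ^ 3 : ℝ) / η + 1 ≤ K := exists_nat_ge _
    have hKpos : (0 : ℝ) < K := by
      have : (0 : ℝ) ≤ ((m + 1 : ℕ) ^ 3 : ℝ) / η := by positivity
      linarith
    have hinf : (I \ Set.Iic m).Infinite := hI.sdiff (Set.finite_Iic m)
    obtain ⟨B, hBsub, hBcard⟩ := hinf.exists_subset_card_eq K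
    have hBm : ∀ i ∈ B, m < i := by
      intro i hi
      have := hBsub hi
      simpa using this.2
    have hBI : ∀ i ∈ B, i ∈ I := fun i hi => (hBsub hi).1
    have hdisj : Disjoint J B := by
      rw [Finset.disjoint_left]
      intro i hiJ hiB
      have h1 : i ≤ m := Finset.le_sup (f := id) hiJ
      have h2 := hBm i hiB
      omega
    refine ⟨J ∪ B, fun i => a i + (if i ∈ B then 1 / (K : ℝ) else 0), ?_, ?_, ?_, ?_, ?_⟩
    · intro i hi
      rcases Finset.mem_union.1 hi with h | h
      · exact hJ i h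
      · exact hBI i h
    · intro i
      have := ha i
      show 0 ≤ a i + (if i ∈ B then 1 / (K : ℝ) else 0)
      split_ifs
      · positivity
      · simpa using this
    · intro i hi
      rw [Finset.mem_union, not_or] at hi
      simp [hJa i hi.1, hi.2]
    · rw [Finset.sum_add_distrib, Finset.sum_union hdisj, hsum]
      have h1 : ∑ i ∈ B, a i = 0 :=
        Finset.sum_eq_zero fun i hi => hJa i fun h => (Finset.disjoint_left.1 hdisj h) hi
      have h2 : ∑ i ∈ J ∪ B, (if i ∈ B then 1 / (K : ℝ) else 0) = 1 := by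
        rw [← Finset.sum_filter]
        have : (J ∪ B).filter (fun i => i ∈ B) = B := by
          ext i
          simp
        rw [this, Finset.sum_const, hBcard, nsmul_eq_mul]
        field_simp
      rw [h1, h2]
      push_cast
      ring
    · intro F hadm
      rw [Finset.sum_add_distrib]
      have hB : ∑ i ∈ F, (if i ∈ B then 1 / (K : ℝ) else 0) = (F.filter (fun i => i ∈ B)).card / K := by
        rw [← Finset.sum_filter, Finset.sum_const, nsmul_eq_mul, mul_one_div]
      rw [hB]
      by_cases hFJ : ∃ i ∈ F, i ≤ m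
      · obtain ⟨i, hiF, him⟩ := hFJ
        have h1 := hF F hadm
        have h2 : (F.filter (fun i => i ∈ B)).card ≤ (m + 1) ^ 3 :=
          (Finset.card_le_card (Finset.filter_subset _ _)).trans
            ((hadm i hiF).trans (Nat.pow_le_pow_left (by omega) 3))
        have h3 : ((F.filter (fun i => i ∈ B)).card : ℝ) / K ≤ η := by
          rw [div_le_iff₀ hKpos]
          have h4 : ((F.filter (fun i => i ∈ B)).card : ℝ) ≤ ((m + 1 : ℕ) ^ 3 : ℝ) := by
            exact_mod_cast h2
          have h5 : ((m + 1 : ℕ) ^ 3 : ℝ) ≤ η * K := by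
            have : ((m + 1 : ℕ) ^ 3 : ℝ) / η ≤ K := by linarith
            rw [div_le_iff₀ hη] at this
            linarith
          linarith
        push_cast
        linarith
      · push Not at hFJ
        have h1 : ∑ i ∈ F, a i = 0 :=
          Finset.sum_eq_zero fun i hi => hJa i fun h => by
            have h1 : i ≤ m := Finset.le_sup (f := id) h
            have h2 := hFJ i hi
            omega
        have h2 : (F.filter (fun i => i ∈ B)).card ≤ K := by
          rw [← hBcard]
          exact Finset.card_le_card (fun i hi => (Finset.mem_filter.1 hi).2)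
        have h3 : ((F.filter (fun i => i ∈ B)).card : ℝ) / K ≤ 1 := by
          rw [div_le_one hKpos]
          exact_mod_cast h2
        rw [h1]
        have : (0 : ℝ) ≤ ((N + 1 : ℕ) : ℝ) * η := by positivity
        linarith

end Weights


section Model

variable (s u v : ℝ)

/-- The patterns: finitely supported functions with admissible support `F` that either are
`u` on an initial part of `F` and `-v` on the rest, or take the values `s`, `-s` on `F`. -/
def Pat : Set (ℕ → ℝ) :=
  {f | ∃ F : Finset ℕ, Adm F ∧ (∀ i, i ∉ F → f i = 0) ∧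
    ((∃ p : ℕ, ∀ i ∈ F, (i < p → f i = u) ∧ (p ≤ i → f i = -v)) ∨
      (∀ i ∈ F, f i = s ∨ f i = -s))}

/-- The type of patterns, with the discrete topology. -/
def K : Type := {f : ℕ → ℝ // f ∈ Pat s u v}

instance : TopologicalSpace (K s u v) := ⊥

instance : DiscreteTopology (K s u v) := ⟨rfl⟩

variable {s u v}

/-- The pattern as a function. -/
def K.val (f : K s u v) : ℕ → ℝ := f.1

/-- The real constraints on the parameters. -/
structure Good (s u v : ℝ) : Prop where
  hu : 0 < u
  hv : 0 ≤ v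
  hvu : v ≤ u
  hs : u ≤ 2 * s
  hsv : 2 * s ≤ u + v

theorem K.range (h : Good s u v) (f : K s u v) :
    ((∀ i, f.val i ≤ u ∧ -v ≤ f.val i) ∨ (∀ i, f.val i ≤ s ∧ -s ≤ f.val i)) := by
  obtain ⟨hu, hv, hvu, hs, hsv⟩ := h
  obtain ⟨F, -, h0, h1 | h1⟩ := f.2
  · left
    intro i
    obtain ⟨p, hp⟩ := h1
    by_cases hi : i ∈ F
    · rcases lt_or_ge i p with hip | hip
      · have := (hp i hi).1 hip
        show f.1 i ≤ u ∧ -v ≤ f.1 i
        rw [this]; constructor <;> linarith
      · have := (hp i hi).2 hip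
        show f.1 i ≤ u ∧ -v ≤ f.1 i
        rw [this]; constructor <;> linarith
    · show f.1 i ≤ u ∧ -v ≤ f.1 i
      rw [h0 i hi]; constructor <;> linarith
  · right
    intro i
    by_cases hi : i ∈ F
    · show f.1 i ≤ s ∧ -s ≤ f.1 i
      rcases h1 i hi with h | h <;> rw [h] <;> constructor <;> linarith
    · show f.1 i ≤ s ∧ -s ≤ f.1 i
      rw [h0 i hi]; constructor <;> linarith

theorem K.abs_le (h : Good s u v) (f : K s u v) (i : ℕ) : |f.val i| ≤ u := by
  have hr := K.range h f
  obtain ⟨hu, hv, hvu, hs, hsv⟩ := h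
  rw [_root_.abs_le]
  rcases hr with hr | hr
  · have := hr i
    constructor <;> linarith
  · have := hr i
    constructor <;> linarith

/-- The basic vectors in `ℓ_∞(K)`. -/
noncomputable def e (h : Good s u v) (n : ℕ) : BoundedContinuousFunction (K s u v) ℝ :=
  BoundedContinuousFunction.ofNormedAddCommGroupDiscrete (fun f => f.val n) u
    (fun f => by rw [Real.norm_eq_abs]; exact K.abs_le h f n)

@[simp] theorem e_apply (h : Good s u v) (n : ℕ) (f : K s u v) : e h n f = f.val n := rfl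

/-- Evaluation functional. -/
noncomputable def ev (f : K s u v) : BoundedContinuousFunction (K s u v) ℝ →L[ℝ] ℝ :=
  BoundedContinuousFunction.evalCLM ℝ f

@[simp] theorem ev_apply (f : K s u v) (x : BoundedContinuousFunction (K s u v) ℝ) :
    ev f x = x f := rfl

theorem ev_norm (f : K s u v) : ‖ev f‖ ≤ 1 := by
  refine ContinuousLinearMap.opNorm_le_bound _ zero_le_one fun x => ?_
  rw [ev_apply, one_mul]
  exact x.norm_coe_le_norm f

theorem e_norm (h : Good s u v) (n : ℕ) : ‖e h n‖ ≤ u := by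
  rw [BoundedContinuousFunction.norm_le h.hu.le]
  intro f
  rw [Real.norm_eq_abs]
  exact K.abs_le h f n

theorem e_weak (h : Good s u v) : WeakTendsto (e h) 0 := by
  classical
  -- enough: no `φ` has infinitely many `n` with `ε ≤ φ (e n)`.
  have key : ∀ φ : BoundedContinuousFunction (K s u v) ℝ →L[ℝ] ℝ, ∀ ε : ℝ, 0 < ε →
      {n | ε ≤ φ (e h n)}.Finite := by
    intro φ ε hε
    by_contra hinf
    have hinf : {n | ε ≤ φ (e h n)}.Infinite := hinf
    obtain ⟨N, hN⟩ : ∃ N : ℕ, ‖φ‖ * (2 * u) / ε + 1 ≤ N := exists_nat_ge _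
    have hN0 : (0 : ℝ) < N := by
      have : 0 ≤ ‖φ‖ * (2 * u) / ε := by
        have := h.hu
        positivity
      linarith
    obtain ⟨J, a, hJ, ha, hJa, hsum, hF⟩ := exists_weights _ hinf (1 / N) (by positivity) N
    set y : BoundedContinuousFunction (K s u v) ℝ := ∑ i ∈ J, a i • e h i with hy
    have hynorm : ‖y‖ ≤ 2 * u := by
      rw [BoundedContinuousFunction.norm_le (by linarith [h.hu])]
      intro f
      obtain ⟨F, hadm, h0, -⟩ := f.2
      have h1 : y f = ∑ i ∈ J, a i * f.val i := by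
        rw [hy]
        simp [BoundedContinuousFunction.coe_sum]
      have h2 : ∑ i ∈ J, a i * f.val i = ∑ i ∈ F, a i * f.val i := by
        have h3 : ∑ i ∈ J, a i * f.val i = ∑ i ∈ J ∪ F, a i * f.val i := by
          refine Finset.sum_subset Finset.subset_union_left ?_
          intro i _ hi
          rw [hJa i hi, zero_mul]
        have h4 : ∑ i ∈ F, a i * f.val i = ∑ i ∈ J ∪ F, a i * f.val i := by
          refine Finset.sum_subset Finset.subset_union_right ?_
          intro i _ hi
          have : f.val i = 0 := h0 i hi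
          rw [this, mul_zero]
        rw [h3, h4]
      rw [h1, h2, Real.norm_eq_abs]
      calc |∑ i ∈ F, a i * f.val i| ≤ ∑ i ∈ F, |a i * f.val i| := Finset.abs_sum_le_sum_abs _ _
        _ ≤ ∑ i ∈ F, a i * u := by
            refine Finset.sum_le_sum fun i _ => ?_
            rw [abs_mul, abs_of_nonneg (ha i)]
            exact mul_le_mul_of_nonneg_left (K.abs_le h f i) (ha i)
        _ = (∑ i ∈ F, a i) * u := by rw [Finset.sum_mul]
        _ ≤ (1 + N * (1 / N)) * u := mul_le_mul_of_nonneg_right (hF F hadm) h.hu.le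
        _ = 2 * u := by
            field_simp
            ring
    have hφ : ε * N ≤ φ y := by
      rw [hy, map_sum, ← hsum, Finset.mul_sum]
      refine Finset.sum_le_sum fun i hi => ?_
      rw [map_smul, smul_eq_mul, mul_comm]
      exact mul_le_mul_of_nonneg_left (hJ i hi) (ha i)
    have hφ2 : φ y ≤ ‖φ‖ * (2 * u) :=
      (le_abs_self _).trans ((φ.le_opNorm y).trans
        (mul_le_mul_of_nonneg_left hynorm (norm_nonneg _)))
    have h5 : ‖φ‖ * (2 * u) / ε < N := by linarith
    rw [div_lt_iff₀ hε] at h5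
    linarith [mul_comm ε (N : ℝ)]
  intro φ
  rw [map_zero, Metric.tendsto_atTop]
  intro ε hε
  have h1 := key φ ε hε
  have h2 := key (-φ) ε hε
  obtain ⟨M, hM⟩ := (h1.union h2).bddAbove
  refine ⟨M + 1, fun n hn => ?_⟩
  rw [Real.dist_eq, sub_zero, abs_lt]
  constructor
  · by_contra hc
    have : n ∈ {n | ε ≤ φ (e h n)} ∪ {n | ε ≤ (-φ) (e h n)} := by
      right
      show ε ≤ (-φ) (e h n)
      have hneg : (-φ) (e h n) = -(φ (e h n)) := rfl
      rw [hneg]
      linarith
    have := hM this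
    omega
  · by_contra hc
    have : n ∈ {n | ε ≤ φ (e h n)} ∪ {n | ε ≤ (-φ) (e h n)} := by
      left
      show ε ≤ φ (e h n)
      linarith
    have := hM this
    omega

/-- The set `A`. -/
noncomputable def A (h : Good s u v) : Set (BoundedContinuousFunction (K s u v) ℝ) :=
  Set.range (e h)

/-- Dichotomy for weakly convergent sequences in `A`. -/
theorem dichotomy (h : Good s u v) (n : ℕ → ℕ) (a : BoundedContinuousFunction (K s u v) ℝ)
    (hw : WeakTendsto (fun k => e h (n k)) a) :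
    (Tendsto n atTop atTop ∧ a = 0) ∨ (∃ m, a = e h m ∧ ∃ᶠ k in atTop, n k = m) := by
  by_cases ht : Tendsto n atTop atTop
  · left
    refine ⟨ht, ?_⟩
    ext f
    have h1 := hw (ev f)
    have h2 := (e_weak h (ev f)).comp ht
    exact tendsto_nhds_unique h1 h2
  · right
    -- some value is taken infinitely often
    have : ∃ m, ∃ᶠ k in atTop, n k = m := by
      by_contra hc
      push Not at hc
      apply ht
      rw [tendsto_atTop]
      intro b
      have h1 : ∀ m ∈ Finset.range b, ∀ᶠ k in atTop, n k ≠ m := fun m _ => hc m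
      rw [← Filter.eventually_all_finset] at h1
      filter_upwards [h1] with k hk
      by_contra hlt
      exact hk (n k) (Finset.mem_range.2 (by omega)) rfl
    obtain ⟨m, hm⟩ := this
    refine ⟨m, ?_, hm⟩
    ext f
    have h1 : Tendsto (fun k => (n k |> e h) f) atTop (𝓝 (a f)) := hw (ev f)
    by_contra hne
    have h2 : ∀ᶠ k in atTop, (e h (n k)) f ≠ e h m f := by
      exact h1.eventually_ne hne
    obtain ⟨k, hk1, hk2⟩ := (hm.and_eventually h2).exists
    exact hk2 (by rw [hk1])


theorem mean_mem (g : ℕ → ℝ) (lo hi : ℝ) (hlo : lo ≤ 0) (hhi : 0 ≤ hi)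
    (hg : ∀ i, g i ≤ hi ∧ lo ≤ g i) (k : ℕ) :
    (1 / (k : ℝ)) * ∑ i ∈ Finset.Icc 1 k, g i ≤ hi ∧
      lo ≤ (1 / (k : ℝ)) * ∑ i ∈ Finset.Icc 1 k, g i := by
  rcases Nat.eq_zero_or_pos k with rfl | hk
  · simp [hlo, hhi]
  · have hk' : (0 : ℝ) < k := by exact_mod_cast hk
    have h1 : ∑ i ∈ Finset.Icc 1 k, g i ≤ k * hi := by
      have := Finset.sum_le_card_nsmul (Finset.Icc 1 k) g hi (fun i _ => (hg i).1)
      simpa using this
    have h2 : k * lo ≤ ∑ i ∈ Finset.Icc 1 k, g i := by
      have := Finset.card_nsmul_le_sum (Finset.Icc 1 k) g lo (fun i _ => (hg i).2)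
      simpa using this
    constructor
    · rw [one_div, inv_mul_le_iff₀ hk']
      exact h1
    · rw [one_div, le_inv_mul_iff₀ hk']
      exact h2

theorem mean_apply (h : Good s u v) (n : ℕ → ℕ) (k : ℕ) (f : K s u v) :
    ((1 / (k : ℝ)) • ∑ i ∈ Finset.Icc 1 k, e h (n i)) f =
      (1 / (k : ℝ)) * ∑ i ∈ Finset.Icc 1 k, f.val (n i) := by
  simp [BoundedContinuousFunction.coe_sum]

theorem mean_diff (h : Good s u v) (n : ℕ → ℕ) (k l : ℕ) :
    ‖(1 / (k : ℝ)) • ∑ i ∈ Finset.Icc 1 k, e h (n i) -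
      (1 / (l : ℝ)) • ∑ i ∈ Finset.Icc 1 l, e h (n i)‖ ≤ u + v := by
  rw [BoundedContinuousFunction.norm_le (by linarith [h.hu, h.hv])]
  intro f
  rw [BoundedContinuousFunction.sub_apply, mean_apply, mean_apply, Real.norm_eq_abs]
  rcases K.range h f with hr | hr
  · have h1 := mean_mem (fun i => f.val (n i)) (-v) u (by linarith [h.hv]) h.hu.le
      (fun i => hr (n i)) k
    have h2 := mean_mem (fun i => f.val (n i)) (-v) u (by linarith [h.hv]) h.hu.le
      (fun i => hr (n i)) l
    rw [_root_.abs_le]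
    constructor <;> linarith [h1.1, h1.2, h2.1, h2.2]
  · have hs0 : 0 ≤ s := by linarith [h.hu, h.hs]
    have h1 := mean_mem (fun i => f.val (n i)) (-s) s (by linarith) hs0
      (fun i => hr (n i)) k
    have h2 := mean_mem (fun i => f.val (n i)) (-s) s (by linarith) hs0
      (fun i => hr (n i)) l
    rw [_root_.abs_le]
    constructor <;> linarith [h1.1, h1.2, h2.1, h2.2, h.hsv]

theorem ca_nonneg {X : Type*} [NormedAddCommGroup X] (x : ℕ → X) : 0 ≤ ca x := by
  refine Real.iInf_nonneg fun n => Real.sSup_nonneg ?_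
  rintro r ⟨k, l, -, -, rfl⟩
  exact norm_nonneg _

theorem cca_le (h : Good s u v) (n : ℕ → ℕ) : cca (fun k => e h (n k)) ≤ u + v := by
  unfold cca ca
  have hb : BddBelow (Set.range fun m : ℕ => sSup {r : ℝ | ∃ k l : ℕ, m ≤ k ∧ m ≤ l ∧
      r = ‖(1 / (k : ℝ)) • ∑ i ∈ Finset.Icc 1 k, e h (n i) -
      (1 / (l : ℝ)) • ∑ i ∈ Finset.Icc 1 l, e h (n i)‖}) := by
    refine ⟨0, ?_⟩
    rintro _ ⟨m, rfl⟩
    refine Real.sSup_nonneg ?_
    rintro r ⟨k, l, -, -, rfl⟩
    exact norm_nonneg _
  refine (ciInf_le hb 0).trans ?_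
  refine Real.sSup_le ?_ (by linarith [h.hu, h.hv])
  rintro r ⟨k, l, -, -, rfl⟩
  exact mean_diff h n k l

/-- The step pattern with support `F` and threshold `p`. -/
noncomputable def step (F : Finset ℕ) (hF : Adm F) (p : ℕ) : K s u v := by
  classical
  exact ⟨fun i => if i ∈ F then (if i < p then u else -v) else 0, F, hF,
    fun i hi => by simp [hi],
    Or.inl ⟨p, fun i hi => ⟨fun hip => by simp [hi, hip], fun hip => by
      simp [hi, not_lt.2 hip]⟩⟩⟩

theorem step_val (F : Finset ℕ) (hF : Adm F) (p : ℕ) (i : ℕ) :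
    (step F hF p : K s u v).val i = if i ∈ F then (if i < p then u else -v) else 0 := by
  unfold step K.val
  congr

/-- Image of an interval under a subsequence is admissible. -/
theorem adm_image (σ : ℕ → ℕ) (hσ : StrictMono σ) (p l : ℕ) (hl : l ≤ (p + 1) ^ 3) (hp : 1 ≤ p) :
    Adm ((Finset.Icc p l).image σ) := by
  intro i hi
  obtain ⟨j, hj, rfl⟩ := Finset.mem_image.1 hi
  rw [Finset.mem_Icc] at hj
  have h1 : ((Finset.Icc p l).image σ).card ≤ l + 1 - p := by
    refine Finset.card_image_le.trans ?_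
    simp
  have h2 : j ≤ σ j := hσ.id_le j
  have h3 : (p + 1) ^ 3 ≤ (σ j + 1) ^ 3 := Nat.pow_le_pow_left (by omega) 3
  omega

theorem le_cca (h : Good s u v) (σ : ℕ → ℕ) (hσ : StrictMono σ) :
    u + v ≤ cca (fun k => e h (σ k)) := by
  unfold cca ca
  refine le_ciInf fun n => ?_
  have hb : BddAbove {r : ℝ | ∃ k l : ℕ, n ≤ k ∧ n ≤ l ∧
      r = ‖(1 / (k : ℝ)) • ∑ i ∈ Finset.Icc 1 k, e h (σ i) -
      (1 / (l : ℝ)) • ∑ i ∈ Finset.Icc 1 l, e h (σ i)‖} := by
    refine ⟨u + v, ?_⟩
    rintro r ⟨k, l, -, -, rfl⟩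
    exact mean_diff h σ k l
  refine le_of_forall_pos_le_add fun η hη => ?_
  -- choose `p` large
  obtain ⟨p, hp⟩ : ∃ p : ℕ, (2 * u + v) / η + n + 1 ≤ p := exists_nat_ge _
  have huv : 0 ≤ (2 * u + v) / η := div_nonneg (by linarith [h.hu, h.hv]) hη.le
  have hp0 : (1 : ℝ) ≤ p := by
    have : (0 : ℝ) ≤ n := Nat.cast_nonneg n
    linarith
  have hp1 : 1 ≤ p := by exact_mod_cast hp0
  have hpn : n ≤ p := by
    have : (n : ℝ) ≤ p := by linarith
    exact_mod_cast this
  have hpη : (2 * u + v) / p ≤ η := by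
    rw [div_le_iff₀ (by linarith)]
    have : (2 * u + v) / η ≤ p := by
      have : (0 : ℝ) ≤ n := Nat.cast_nonneg n
      linarith
    rw [div_le_iff₀ hη] at this
    linarith [mul_comm η (p : ℝ)]
  set k : ℕ := p ^ 2 with hk
  set l : ℕ := p ^ 3 with hl
  have hpk : p ≤ k := by rw [hk]; nlinarith
  have hkl : k ≤ l := by rw [hk, hl]; exact Nat.pow_le_pow_right hp1 (by norm_num)
  have hl' : l ≤ (p + 1) ^ 3 := Nat.pow_le_pow_left (by omega) 3
  have hadm := adm_image σ hσ p l hl' hp1
  set f : K s u v := step _ hadm (σ k + 1) with hf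
  have hval : ∀ i, 1 ≤ i → i ≤ l →
      f.val (σ i) = if i < p then 0 else if i ≤ k then u else -v := by
    intro i h1 h2
    rw [hf, step_val]
    by_cases hip : i < p
    · have : σ i ∉ (Finset.Icc p l).image σ := by
        intro hmem
        obtain ⟨j, hj, hji⟩ := Finset.mem_image.1 hmem
        have := hσ.injective hji
        rw [Finset.mem_Icc] at hj
        omega
      simp [this, hip]
    · have hmem : σ i ∈ (Finset.Icc p l).image σ :=
        Finset.mem_image_of_mem σ (Finset.mem_Icc.2 ⟨by omega, h2⟩)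
      rw [if_pos hmem, if_neg hip]
      by_cases hik : i ≤ k
      · have : σ i < σ k + 1 := by
          have := hσ.monotone hik
          omega
        rw [if_pos this, if_pos hik]
      · have : ¬ σ i < σ k + 1 := by
          have := hσ (not_le.1 hik)
          omega
        rw [if_neg this, if_neg hik]
  have hsumk : ∑ i ∈ Finset.Icc 1 k, f.val (σ i) = ((k : ℝ) - p + 1) * u := by
    have h1 : ∑ i ∈ Finset.Icc 1 k, f.val (σ i) =
        ∑ i ∈ Finset.Icc 1 k, if i < p then 0 else u := by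
      refine Finset.sum_congr rfl fun i hi => ?_
      rw [Finset.mem_Icc] at hi
      rw [hval i hi.1 (hi.2.trans hkl), if_pos hi.2]
    have h2 : ∑ i ∈ Finset.Icc 1 k, (if i < p then 0 else u) = ∑ i ∈ Finset.Icc p k, u := by
      rw [← Finset.sum_filter_add_sum_filter_not (Finset.Icc 1 k) (fun i => i < p)]
      rw [Finset.sum_eq_zero (s := (Finset.Icc 1 k).filter (fun i => i < p)), zero_add]
      · have : (Finset.Icc 1 k).filter (fun i => ¬ i < p) = Finset.Icc p k := by
          ext i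
          simp only [Finset.mem_filter, Finset.mem_Icc]
          omega
        rw [this]
        refine Finset.sum_congr rfl fun i hi => ?_
        rw [Finset.mem_Icc] at hi
        rw [if_neg (by omega)]
      · intro i hi
        rw [Finset.mem_filter] at hi
        rw [if_pos hi.2]
    rw [h1, h2, Finset.sum_const, nsmul_eq_mul, Nat.card_Icc]
    rw [Nat.cast_sub (by omega)]
    push_cast
    ring
  have hsuml : ∑ i ∈ Finset.Icc 1 l, f.val (σ i) =
      ((k : ℝ) - p + 1) * u - ((l : ℝ) - k) * v := by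
    have h1 : Finset.Icc 1 l = Finset.Icc 1 k ∪ Finset.Icc (k + 1) l := by
      ext i
      simp only [Finset.mem_union, Finset.mem_Icc]
      omega
    have h2 : Disjoint (Finset.Icc 1 k) (Finset.Icc (k + 1) l) := by
      rw [Finset.disjoint_left]
      intro i hi hi'
      rw [Finset.mem_Icc] at hi hi'
      omega
    rw [h1, Finset.sum_union h2, hsumk]
    have h3 : ∑ i ∈ Finset.Icc (k + 1) l, f.val (σ i) = ∑ i ∈ Finset.Icc (k + 1) l, (-v) := by
      refine Finset.sum_congr rfl fun i hi => ?_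
      rw [Finset.mem_Icc] at hi
      rw [hval i (by omega) hi.2, if_neg (by omega), if_neg (by omega)]
    rw [h3, Finset.sum_const, nsmul_eq_mul, Nat.card_Icc]
    rw [Nat.cast_sub (by omega)]
    push_cast
    ring
  have hmain : u + v - (2 * u + v) / p ≤
      ‖(1 / (k : ℝ)) • ∑ i ∈ Finset.Icc 1 k, e h (σ i) -
        (1 / (l : ℝ)) • ∑ i ∈ Finset.Icc 1 l, e h (σ i)‖ := by
    refine le_trans ?_ (BoundedContinuousFunction.norm_coe_le_norm _ f)
    rw [BoundedContinuousFunction.sub_apply, mean_apply, mean_apply, hsumk, hsuml,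
      Real.norm_eq_abs]
    refine le_trans ?_ (le_abs_self _)
    have hpp : (0 : ℝ) < p := by linarith
    have hk2 : (k : ℝ) = p ^ 2 := by rw [hk]; push_cast; ring
    have hl2 : (l : ℝ) = p ^ 3 := by rw [hl]; push_cast; ring
    rw [hk2, hl2]
    have h1 : 1 / (p : ℝ) ^ 2 * (((p : ℝ) ^ 2 - p + 1) * u) -
        1 / (p : ℝ) ^ 3 * (((p : ℝ) ^ 2 - p + 1) * u - ((p : ℝ) ^ 3 - (p : ℝ) ^ 2) * v) =
        u + v - (2 * u + v) / p + (2 * u / p ^ 2 - u / p ^ 3) := by
      field_simp
      ring
    rw [h1]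
    have h2 : u / (p : ℝ) ^ 3 ≤ 2 * u / p ^ 2 := by
      rw [div_le_div_iff₀ (by positivity) (by positivity)]
      have : (p : ℝ) ^ 2 ≤ p ^ 3 := pow_le_pow_right₀ hp0 (by norm_num)
      nlinarith [h.hu, pow_pos hpp 3]
    linarith
  have : u + v - (2 * u + v) / p ≤ sSup {r : ℝ | ∃ k l : ℕ, n ≤ k ∧ n ≤ l ∧
      r = ‖(1 / (k : ℝ)) • ∑ i ∈ Finset.Icc 1 k, e h (σ i) -
      (1 / (l : ℝ)) • ∑ i ∈ Finset.Icc 1 l, e h (σ i)‖} := by
    refine hmain.trans (le_csSup hb ?_)
    exact ⟨k, l, by omega, by omega, rfl⟩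
  linarith

theorem ccaSub_le (h : Good s u v) (n : ℕ → ℕ) : ccaSub (fun k => e h (n k)) ≤ u + v := by
  unfold ccaSub
  have hb : BddBelow (Set.range fun σ : {σ : ℕ → ℕ // StrictMono σ} =>
      cca (fun k => e h (n (σ.1 k)))) := by
    refine ⟨0, ?_⟩
    rintro _ ⟨m, rfl⟩
    exact ca_nonneg _
  exact (ciInf_le hb ⟨id, strictMono_id⟩).trans (cca_le h _)

theorem le_ccaSub (h : Good s u v) : u + v ≤ ccaSub (e h) := by
  unfold ccaSub
  have : Nonempty {σ : ℕ → ℕ // StrictMono σ} := ⟨⟨id, strictMono_id⟩⟩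
  exact le_ciInf fun σ => le_cca h σ.1 σ.2

theorem exists_index (h : Good s u v) (x : ℕ → BoundedContinuousFunction (K s u v) ℝ)
    (hx : ∀ k, x k ∈ A h) : ∃ n : ℕ → ℕ, x = fun k => e h (n k) := by
  choose n hn using hx
  exact ⟨n, funext fun k => (hn k).symm⟩

theorem wbs_A (h : Good s u v) : wbs (A h) = u + v := by
  unfold wbs
  apply le_antisymm
  · refine Real.sSup_le ?_ (by linarith [h.hu, h.hv])
    rintro r ⟨x, hx, -, rfl⟩
    obtain ⟨n, rfl⟩ := exists_index h x hx
    exact ccaSub_le h n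
  · refine le_csSup_of_le ?_ ⟨e h, fun k => ⟨k, rfl⟩, ⟨0, e_weak h⟩, rfl⟩ (le_ccaSub h)
    refine ⟨u + v, ?_⟩
    rintro r ⟨x, hx, -, rfl⟩
    obtain ⟨n, rfl⟩ := exists_index h x hx
    exact ccaSub_le h n


theorem wu_nonneg {X : Type*} [NormedAddCommGroup X] [NormedSpace ℝ X] (x : ℕ → X) (a : X) :
    0 ≤ wu x a :=
  Real.sInf_nonneg fun _ hε => hε.1.le

theorem wu_bdd {X : Type*} [NormedAddCommGroup X] [NormedSpace ℝ X] (x : ℕ → X) (a : X) :
    BddBelow {ε : ℝ | 0 < ε ∧ ∃ n : ℕ, ∀ φ : X →L[ℝ] ℝ, ‖φ‖ ≤ 1 →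
      {k : ℕ | ε < |φ (x k - a)|}.encard ≤ (n : ℕ∞)} :=
  ⟨0, fun _ hε => hε.1.le⟩

theorem wu_mem (h : Good s u v) (n : ℕ → ℕ) :
    u ∈ {ε : ℝ | 0 < ε ∧ ∃ m : ℕ, ∀ φ : BoundedContinuousFunction (K s u v) ℝ →L[ℝ] ℝ, ‖φ‖ ≤ 1 →
      {k : ℕ | ε < |φ (e h (n k) - 0)|}.encard ≤ (m : ℕ∞)} := by
  refine ⟨h.hu, 0, fun φ hφ => ?_⟩
  have : {k : ℕ | u < |φ (e h (n k) - 0)|} = ∅ := by
    ext k
    simp only [Set.mem_ofPred_eq, Set.mem_empty_iff_false, iff_false, not_lt, sub_zero]
    have h1 := φ.le_opNorm (e h (n k))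
    rw [Real.norm_eq_abs] at h1
    have h2 := e_norm h (n k)
    calc |φ (e h (n k))| ≤ ‖φ‖ * ‖e h (n k)‖ := h1
      _ ≤ 1 * u := mul_le_mul hφ h2 (norm_nonneg _) zero_le_one
      _ = u := one_mul u
  rw [this]
  simp

theorem wuSub_le (h : Good s u v) (n : ℕ → ℕ) (a : BoundedContinuousFunction (K s u v) ℝ)
    (hw : WeakTendsto (fun k => e h (n k)) a) : wuSub (fun k => e h (n k)) a ≤ u := by
  unfold wuSub
  have hb : BddBelow (Set.range fun σ : {σ : ℕ → ℕ // StrictMono σ} =>
      wu (fun k => e h (n (σ.1 k))) a) := by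
    refine ⟨0, ?_⟩
    rintro _ ⟨m, rfl⟩
    exact wu_nonneg _ _
  rcases dichotomy h n a hw with ⟨-, rfl⟩ | ⟨m, rfl, hm⟩
  · exact (ciInf_le hb ⟨id, strictMono_id⟩).trans (csInf_le (wu_bdd _ _) (wu_mem h n))
  · obtain ⟨σ, hσ, hσm⟩ := Filter.extraction_of_frequently_atTop hm
    refine (ciInf_le hb ⟨σ, hσ⟩).trans ((csInf_le (wu_bdd _ _) ?_))
    refine ⟨h.hu, 0, fun φ _ => ?_⟩
    have : {k : ℕ | u < |φ (e h (n (σ k)) - e h m)|} = ∅ := by
      ext k
      simp only [Set.mem_ofPred_eq, Set.mem_empty_iff_false, iff_false, not_lt]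
      rw [hσm k, sub_self, map_zero, abs_zero]
      exact h.hu.le
    show {k : ℕ | u < |φ (e h (n (σ k)) - e h m)|}.encard ≤ _
    rw [this]
    simp

theorem le_wu (h : Good s u v) (σ : ℕ → ℕ) (hσ : StrictMono σ) :
    u ≤ wu (fun k => e h (σ k)) 0 := by
  unfold wu
  refine le_csInf ⟨u, wu_mem h σ⟩ ?_
  rintro ε ⟨hε, n, hn⟩
  by_contra hlt
  push Not at hlt
  have hadm := adm_image σ hσ (n + 1) (2 * n + 1) (by nlinarith [pow_pos (Nat.succ_pos n) 3]) (by omega)
  set f : K s u v := step _ hadm (σ (2 * n + 1) + 1) with hf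
  have h1 := hn (ev f) (ev_norm f)
  have h2 : ((Finset.Icc (n + 1) (2 * n + 1) : Finset ℕ) : Set ℕ) ⊆
      {k : ℕ | ε < |ev f (e h (σ k) - 0)|} := by
    intro k hk
    rw [Finset.mem_coe, Finset.mem_Icc] at hk
    show ε < |ev f (e h (σ k) - 0)|
    rw [sub_zero, ev_apply, e_apply, hf, step_val]
    have hmem : σ k ∈ (Finset.Icc (n + 1) (2 * n + 1)).image σ :=
      Finset.mem_image_of_mem σ (Finset.mem_Icc.2 hk)
    have hlt' : σ k < σ (2 * n + 1) + 1 := by
      have := hσ.monotone hk.2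
      omega
    rw [if_pos hmem, if_pos hlt']
    exact hlt.trans_le (le_abs_self _)
  have h3 := (Set.encard_le_encard h2).trans h1
  rw [Set.encard_coe_eq_coe_finsetCard, Nat.card_Icc] at h3
  have h4 : 2 * n + 1 + 1 - (n + 1) ≤ n := by exact_mod_cast h3
  omega

theorem le_wuSub (h : Good s u v) : u ≤ wuSub (e h) 0 := by
  unfold wuSub
  have : Nonempty {σ : ℕ → ℕ // StrictMono σ} := ⟨⟨id, strictMono_id⟩⟩
  exact le_ciInf fun σ => le_wu h σ.1 σ.2

theorem swu_A (h : Good s u v) : swu (A h) = u := by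
  unfold swu
  apply le_antisymm
  · refine Real.sSup_le ?_ h.hu.le
    rintro r ⟨x, a, hx, hw, rfl⟩
    obtain ⟨n, rfl⟩ := exists_index h x hx
    exact wuSub_le h n a hw
  · refine le_csSup_of_le ?_ ⟨e h, 0, fun k => ⟨k, rfl⟩, e_weak h, rfl⟩ (le_wuSub h)
    refine ⟨u, ?_⟩
    rintro r ⟨x, a, hx, hw, rfl⟩
    obtain ⟨n, rfl⟩ := exists_index h x hx
    exact wuSub_le h n a hw

/-- The sign pattern with support `F`. -/
noncomputable def signs (F : Finset ℕ) (hF : Adm F) (α : ℕ → ℝ) : K s u v := by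
  classical
  exact ⟨fun i => if i ∈ F then (if 0 ≤ α i then s else -s) else 0, F, hF,
    fun i hi => by simp [hi],
    Or.inr fun i hi => by
      by_cases h : 0 ≤ α i
      · left; simp [hi, h]
      · right; simp [hi, h]⟩

theorem signs_val (F : Finset ℕ) (hF : Adm F) (α : ℕ → ℝ) (i : ℕ) :
    (signs F hF α : K s u v).val i = if i ∈ F then (if 0 ≤ α i then s else -s) else 0 := by
  unfold signs K.val
  congr

theorem generates (h : Good s u v) : GeneratesL1 (fun k => e h k - 0) s := by
  intro F hFne hF α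
  have hadm : Adm F := fun i hi => (hF i hi).trans (by nlinarith [pow_pos (Nat.succ_pos i) 2])
  set f : K s u v := signs F hadm α with hf
  refine le_trans ?_ (BoundedContinuousFunction.norm_coe_le_norm _ f)
  have h1 : (∑ i ∈ F, α i • (e h i - 0)) f = s * ∑ i ∈ F, |α i| := by
    simp only [sub_zero, BoundedContinuousFunction.coe_sum, Finset.sum_apply,
      BoundedContinuousFunction.coe_smul, e_apply, smul_eq_mul]
    rw [Finset.mul_sum]
    refine Finset.sum_congr rfl fun i hi => ?_
    rw [hf, signs_val, if_pos hi]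
    by_cases h0 : 0 ≤ α i
    · rw [if_pos h0, abs_of_nonneg h0]; ring
    · rw [if_neg h0, abs_of_neg (not_le.1 h0)]; ring
  rw [h1, Real.norm_eq_abs]
  exact le_abs_self _

/-- Alternating sums of patterns along increasing indices. -/
theorem alt_sum (h : Good s u v) (f : K s u v) (τ : ℕ → ℕ) (hτ : StrictMono τ) (N : ℕ) :
    |∑ i ∈ Finset.range N, (f.val (τ (2 * i)) - f.val (τ (2 * i + 1)))| ≤
      max (2 * N * s) (N * u + u) := by
  classical
  have hs0 : 0 ≤ s := by linarith [h.hu, h.hs]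
  obtain ⟨F, hadm, h0, ⟨p, hp⟩ | h1⟩ := f.2
  · -- step pattern
    refine le_trans ?_ (le_max_right _ _)
    -- a decreasing auxiliary function
    set g : ℕ → ℝ := fun j => if τ j < p then u else 0 with hg
    have hganti : ∀ j, g (j + 1) ≤ g j := by
      intro j
      have : τ j < τ (j + 1) := hτ (Nat.lt_succ_self j)
      show (if τ (j + 1) < p then u else 0) ≤ (if τ j < p then u else 0)
      split_ifs
      · exact le_rfl
      · omega
      · exact h.hu.le
      · exact le_rfl
    have hterm : ∀ i, |f.val (τ (2 * i)) - f.val (τ (2 * i + 1))| ≤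
        u + (g (2 * i) - g (2 * i + 2)) := by
      intro i
      have hlt : τ (2 * i) < τ (2 * i + 1) := hτ (Nat.lt_succ_self _)
      have hval : ∀ j, (τ j < p → 0 ≤ f.val (τ j) ∧ f.val (τ j) ≤ u) ∧
          (p ≤ τ j → -v ≤ f.val (τ j) ∧ f.val (τ j) ≤ 0) := by
        intro j
        by_cases hj : τ j ∈ F
        · constructor
          · intro hjp
            have : f.val (τ j) = u := (hp _ hj).1 hjp
            rw [this]; exact ⟨h.hu.le, le_rfl⟩
          · intro hjp
            have : f.val (τ j) = -v := (hp _ hj).2 hjp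
            rw [this]; exact ⟨le_rfl, by linarith [h.hv]⟩
        · have : f.val (τ j) = 0 := h0 _ hj
          rw [this]
          exact ⟨fun _ => ⟨le_rfl, h.hu.le⟩, fun _ => ⟨by linarith [h.hv], le_rfl⟩⟩
      have hv1 := hval (2 * i)
      have hv2 := hval (2 * i + 1)
      have hge1 : 0 ≤ g (2 * i) - g (2 * i + 2) := by
        have := hganti (2 * i)
        have := hganti (2 * i + 1)
        have h3 : g (2 * i + 1 + 1) = g (2 * i + 2) := rfl
        linarith
      rcases lt_or_ge (τ (2 * i + 1)) p with hA | hA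
      · have hB : τ (2 * i) < p := hlt.trans hA
        have a1 := hv1.1 hB
        have a2 := hv2.1 hA
        rw [_root_.abs_le]
        constructor <;> linarith
      · rcases lt_or_ge (τ (2 * i)) p with hB | hB
        · have a1 := hv1.1 hB
          have a2 := hv2.2 hA
          have hlt2 : τ (2 * i + 1) < τ (2 * i + 2) := hτ (Nat.lt_succ_self _)
          have g1 : g (2 * i) = u := if_pos hB
          have g2 : g (2 * i + 2) = 0 := if_neg (by omega)
          rw [g1, g2, _root_.abs_le]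
          constructor <;> linarith [h.hvu]
        · have a1 := hv1.2 hB
          have a2 := hv2.2 hA
          rw [_root_.abs_le]
          constructor <;> linarith [h.hvu]
    have htel : ∀ M : ℕ, ∑ i ∈ Finset.range M, (u + (g (2 * i) - g (2 * i + 2))) =
        M * u + (g 0 - g (2 * M)) := by
      intro M
      induction M with
      | zero => simp
      | succ M ih =>
        rw [Finset.sum_range_succ, ih]
        have : 2 * (M + 1) = 2 * M + 2 := by ring
        rw [this]
        push_cast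
        ring
    calc |∑ i ∈ Finset.range N, (f.val (τ (2 * i)) - f.val (τ (2 * i + 1)))|
        ≤ ∑ i ∈ Finset.range N, |f.val (τ (2 * i)) - f.val (τ (2 * i + 1))| :=
          Finset.abs_sum_le_sum_abs _ _
      _ ≤ ∑ i ∈ Finset.range N, (u + (g (2 * i) - g (2 * i + 2))) :=
          Finset.sum_le_sum fun i _ => hterm i
      _ = N * u + (g 0 - g (2 * N)) := htel N
      _ ≤ N * u + u := by
          have g0 : g 0 ≤ u := by
            show (if τ 0 < p then u else 0) ≤ u
            split_ifs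
            · exact le_rfl
            · exact h.hu.le
          have g1 : 0 ≤ g (2 * N) := by
            show 0 ≤ (if τ (2 * N) < p then u else 0)
            split_ifs
            · exact h.hu.le
            · exact le_rfl
          linarith
  · refine le_trans ?_ (le_max_left _ _)
    have hval : ∀ j, |f.val j| ≤ s := by
      intro j
      by_cases hj : j ∈ F
      · rcases h1 j hj with h2 | h2
        · have : f.val j = s := h2
          rw [this, abs_of_nonneg hs0]
        · have : f.val j = -s := h2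
          rw [this, abs_neg, abs_of_nonneg hs0]
      · have : f.val j = 0 := h0 _ hj
        rw [this, abs_zero]; exact hs0
    calc |∑ i ∈ Finset.range N, (f.val (τ (2 * i)) - f.val (τ (2 * i + 1)))|
        ≤ ∑ i ∈ Finset.range N, |f.val (τ (2 * i)) - f.val (τ (2 * i + 1))| :=
          Finset.abs_sum_le_sum_abs _ _
      _ ≤ ∑ i ∈ Finset.range N, (2 * s) := by
          refine Finset.sum_le_sum fun i _ => ?_
          have a1 := hval (τ (2 * i))
          have a2 := hval (τ (2 * i + 1))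
          rw [_root_.abs_le] at a1 a2 ⊢
          constructor <;> linarith
      _ = 2 * N * s := by
          rw [Finset.sum_const, nsmul_eq_mul, Finset.card_range]
          ring

theorem sm_bound (h : Good s u v) (x : ℕ → BoundedContinuousFunction (K s u v) ℝ)
    (hx : ∀ k, x k ∈ A h) (a : BoundedContinuousFunction (K s u v) ℝ) (hw : WeakTendsto x a)
    (δ : ℝ) (hδ : 0 < δ) (hgen : GeneratesL1 (fun k => x k - a) δ) : δ ≤ s := by
  classical
  obtain ⟨n, rfl⟩ := exists_index h x hx
  rcases dichotomy h n a hw with ⟨ht, rfl⟩ | ⟨m, rfl, hm⟩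
  · -- `n k → ∞`
    -- for each `N`, extract an increasing sequence
    have key : ∀ N : ℕ, 1 ≤ N → δ * (2 * N) ≤ max (2 * N * s) (N * u + u) := by
      intro N hN
      obtain ⟨ψ, hψ, hnψ⟩ := Filter.strictMono_subseq_of_tendsto_atTop ht
      -- shift to get beyond `2N`
      set κ : ℕ → ℕ := fun j => ψ (2 * N + j) with hκ
      have hκm : StrictMono κ := fun i j hij => hψ (by omega)
      have hκn : StrictMono (fun j => n (κ j)) := fun i j hij => hnψ (by omega)
      have hκge : ∀ j, 2 * N ≤ κ j := fun j => (Nat.le_add_right _ _).trans (hψ.id_le _)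
      set F : Finset ℕ := (Finset.range (2 * N)).image κ with hF
      have hcard : F.card = 2 * N := by
        rw [hF, Finset.card_image_of_injective _ hκm.injective, Finset.card_range]
      have hFne : F.Nonempty := by
        rw [← Finset.card_pos, hcard]; omega
      set α : ℕ → ℝ := fun i => if i ∈ (Finset.range N).image (fun j => κ (2 * j)) then 1 else -1
        with hα
      have hα1 : ∀ i, |α i| = 1 := by
        intro i
        show |(if i ∈ (Finset.range N).image (fun j => κ (2 * j)) then (1 : ℝ) else -1)| = 1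
        split_ifs <;> simp
      have h1 := hgen F hFne (fun i hi => by
        rw [hcard]
        obtain ⟨j, -, rfl⟩ := Finset.mem_image.1 hi
        exact hκge j) α
      have h2 : ∑ i ∈ F, |α i| = 2 * N := by
        rw [Finset.sum_congr rfl fun i _ => hα1 i, Finset.sum_const, hcard]
        simp
      rw [h2] at h1
      refine h1.trans ?_
      rw [BoundedContinuousFunction.norm_le (le_trans (by
        have := h.hu
        positivity) (le_max_right _ _))]
      intro f
      have hpair : ∀ (M : ℕ) (G : ℕ → ℝ), ∑ j ∈ Finset.range (2 * M), G j =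
          ∑ i ∈ Finset.range M, (G (2 * i) + G (2 * i + 1)) := by
        intro M G
        induction M with
        | zero => simp
        | succ M ih =>
          rw [show 2 * (M + 1) = 2 * M + 1 + 1 by ring, Finset.sum_range_succ,
            Finset.sum_range_succ, ih, Finset.sum_range_succ]
          ring
      have h3 : (∑ i ∈ F, α i • (e h (n i) - 0)) f =
          ∑ i ∈ Finset.range N, (f.val (n (κ (2 * i))) - f.val (n (κ (2 * i + 1)))) := by
        have h4 : (∑ i ∈ F, α i • (e h (n i) - 0)) f = ∑ i ∈ F, α i * f.val (n i) := by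
          simp [BoundedContinuousFunction.coe_sum]
        rw [h4, hF, Finset.sum_image (fun i _ j _ hij => hκm.injective hij),
          hpair N (fun j => α (κ j) * f.val (n (κ j)))]
        refine Finset.sum_congr rfl fun i hi => ?_
        have ha1 : α (κ (2 * i)) = 1 := by
          show (if κ (2 * i) ∈ (Finset.range N).image (fun j => κ (2 * j)) then (1 : ℝ) else -1) = 1
          rw [if_pos (Finset.mem_image_of_mem (fun j => κ (2 * j)) hi)]
        have ha2 : α (κ (2 * i + 1)) = -1 := by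
          show (if κ (2 * i + 1) ∈ (Finset.range N).image (fun j => κ (2 * j))
            then (1 : ℝ) else -1) = -1
          rw [if_neg]
          intro hmem
          obtain ⟨j, -, hj⟩ := Finset.mem_image.1 hmem
          have := hκm.injective hj
          omega
        rw [ha1, ha2]
        ring
      rw [h3, Real.norm_eq_abs]
      exact alt_sum h f (fun j => n (κ j)) hκn N
    by_contra hlt
    push Not at hlt
    obtain ⟨N, hN⟩ : ∃ N : ℕ, u / (2 * (δ - s)) + 1 ≤ N := exists_nat_ge _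
    have hds : 0 < δ - s := by linarith
    have hN1 : (1 : ℝ) ≤ N := by
      have : 0 ≤ u / (2 * (δ - s)) := div_nonneg h.hu.le (by linarith)
      linarith
    have h1 := key N (by exact_mod_cast hN1)
    have h2 : u / (2 * (δ - s)) < N := by linarith
    rw [div_lt_iff₀ (by linarith)] at h2
    rcases le_max_iff.1 h1 with h3 | h3
    · nlinarith
    · nlinarith [h.hs]
  · -- some index repeats: contradiction
    exfalso
    obtain ⟨k, hk1, hk2⟩ := (hm.and_eventually (Filter.eventually_ge_atTop 1)).exists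
    have h1 := hgen {k} (Finset.singleton_nonempty k) (by simpa using hk2) (fun _ => 1)
    rw [Finset.sum_singleton, Finset.sum_singleton] at h1
    simp only [hk1, sub_self, smul_zero, norm_zero, abs_one, mul_one] at h1
    linarith

theorem sm_A (h : Good s u v) : sm (A h) = s := by
  have hs0 : 0 < s := by linarith [h.hu, h.hs]
  unfold sm
  apply le_antisymm
  · refine Real.sSup_le ?_ hs0.le
    rintro δ ⟨hδ, x, a, hx, hw, hgen⟩
    exact sm_bound h x hx a hw δ hδ hgen
  · refine le_csSup ?_ ⟨hs0, e h, 0, fun k => ⟨k, rfl⟩, e_weak h, generates h⟩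
    refine ⟨s, ?_⟩
    rintro δ ⟨hδ, x, a, hx, hw, hgen⟩
    exact sm_bound h x hx a hw δ hδ hgen

theorem A_bounded (h : Good s u v) : Bornology.IsBounded (A h) := by
  rw [isBounded_iff_forall_norm_le]
  refine ⟨u, ?_⟩
  rintro _ ⟨n, rfl⟩
  exact e_norm h n

end Model


/-- The known inequalities `sm A ≤ wbs A / 2 ≤ swu A ≤ 2 sm A` are the only relations between the
three quantities: every triple of reals `s ≤ w ≤ t ≤ 2 s` is `(sm A, wbs A / 2, swu A)` for some
bounded subset `A` of some real Banach space. -/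
theorem result (s w t : ℝ) (hsw : s ≤ w) (hwt : w ≤ t) (hts : t ≤ 2 * s) :
    ∃ (X : Type) (_ : NormedAddCommGroup X) (_ : NormedSpace ℝ X) (_ : CompleteSpace X)
      (A : Set X), Bornology.IsBounded A ∧ sm A = s ∧ wbs A = 2 * w ∧ swu A = t := by
  rcases eq_or_ne t 0 with ht | ht
  · have hs : s = 0 := by linarith
    have hw : w = 0 := by linarith
    refine ⟨ℝ, inferInstance, inferInstance, inferInstance, ∅, Bornology.isBounded_empty, ?_, ?_, ?_⟩
    · rw [hs]
      unfold sm
      have : {δ : ℝ | 0 < δ ∧ ∃ (x : ℕ → ℝ) (a : ℝ), (∀ k, x k ∈ (∅ : Set ℝ)) ∧ WeakTendsto x a ∧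
          GeneratesL1 (fun k => x k - a) δ} = ∅ := by
        ext δ
        simp
      rw [this, Real.sSup_empty]
    · rw [hw]
      unfold wbs
      have : {r : ℝ | ∃ x : ℕ → ℝ, (∀ k, x k ∈ (∅ : Set ℝ)) ∧ (∃ a : ℝ, WeakTendsto x a) ∧
          r = ccaSub x} = ∅ := by
        ext δ
        simp
      rw [this, Real.sSup_empty, mul_zero]
    · rw [ht]
      unfold swu
      have : {r : ℝ | ∃ (x : ℕ → ℝ) (a : ℝ), (∀ k, x k ∈ (∅ : Set ℝ)) ∧ WeakTendsto x a ∧
          r = wuSub x a} = ∅ := by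
        ext δ
        simp
      rw [this, Real.sSup_empty]
  · have ht0 : 0 < t := by
      rcases lt_or_gt_of_ne ht with h | h
      · exfalso; linarith
      · exact h
    have h : Good s t (2 * w - t) :=
      ⟨ht0, by linarith, by linarith, hts, by linarith⟩
    refine ⟨BoundedContinuousFunction (K s t (2 * w - t)) ℝ, inferInstance, inferInstance,
      inferInstance, A h, A_bounded h, sm_A h, ?_, swu_A h⟩
    rw [wbs_A h]
    ring

end Pool.Agent.Results.MP_b2e8e7_an.AllTriples
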